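import Pool.Agent.J6H71.MuS.StmA
import Pool.Agent.W5h33.DF.Field

/-!
# MU3: the number of primes of `ℚ(ζ)`, `ζ` of order `p ^ N`, above `ℓ ≠ p` is bounded

The index of the subgroup generated by `ℓ` in `(ℤ / p ^ N)ˣ` is bounded (lifting the exponent), and an
automorphism `g` with `g ζ = ζ ^ ℓ` maps a valuation ring above `ℓ` to one with the same intersection
with `ℚ(ζ)`, since `g z ≡ z ^ ℓ` for `z ∈ ℤ[ζ]`, the ring of integers of `ℚ(ζ)`.
-/

set_option autoImplicit false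

namespace Pool.Agent.J6H48.MuS

open IntermediateField Module Pool.Agent.Q60.MU Pool.Agent.W5h77.MB NumberField
  Pool.Agent.J6H71.MuS
open scoped Pointwise

/-! ### the order of `ℓ` modulo `p ^ N` -/

theorem exists_exp {p ℓ : ℕ} (hp : p.Prime) (hℓ : ℓ.Prime) (hne : ℓ ≠ p) :
    ∃ a : ℕ, ∀ N d : ℕ, 1 ≤ d → p ^ N ∣ ℓ ^ d - 1 → p ^ N ≤ p ^ a * d := by
  have hpf := Fact.mk hp
  have hcop : ¬ p ∣ ℓ := fun h => hne ((Nat.prime_dvd_prime_iff_eq hp hℓ).1 h).symm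
  have hfin : ∀ a N d : ℕ, 1 ≤ d → N ≤ a + padicValNat p d → p ^ N ≤ p ^ a * d := by
    intro a N d hd h
    calc p ^ N ≤ p ^ (a + padicValNat p d) := Nat.pow_le_pow_right hp.pos h
      _ = p ^ a * p ^ padicValNat p d := pow_add _ _ _
      _ ≤ p ^ a * d := Nat.mul_le_mul_left _ (Nat.le_of_dvd hd pow_padicValNat_dvd)
  rcases hp.eq_two_or_odd' with h2 | hodd
  · subst h2
    refine ⟨padicValNat 2 (ℓ + 1) + padicValNat 2 (ℓ - 1) + 1, fun N d hd h => hfin _ _ _ hd ?_⟩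
    have h1 := padicValNat.pow_two_sub_one (x := ℓ) (n := 2 * d) hℓ.one_lt hcop (by omega)
      (even_two_mul d)
    have h3 : ℓ ^ d - 1 ∣ ℓ ^ (2 * d) - 1 := by
      have h4 := Nat.sub_dvd_pow_sub_pow (ℓ ^ d) 1 2
      rwa [one_pow, ← pow_mul, mul_comm d 2] at h4
    have h0 : ℓ ^ (2 * d) - 1 ≠ 0 := by
      have h4 : 1 < ℓ ^ (2 * d) := Nat.one_lt_pow (by omega) hℓ.one_lt
      omega
    have h4 : N ≤ padicValNat 2 (ℓ ^ (2 * d) - 1) := (padicValNat_dvd_iff_le h0).1 (h.trans h3)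
    have h5 : padicValNat 2 (2 * d) = padicValNat 2 2 + padicValNat 2 d :=
      padicValNat.mul (by norm_num) (by omega)
    have h6 : padicValNat 2 2 = 1 := padicValNat.self (by norm_num)
    omega
  · have hp1 : 1 ≤ p - 1 := by
      have := hp.two_le
      omega
    set x := ℓ ^ (p - 1) with hx
    refine ⟨padicValNat p (x - 1), fun N d hd h => hfin _ _ _ hd ?_⟩
    have hx1 : 1 < x := Nat.one_lt_pow (by omega) hℓ.one_lt
    have hxp : p ∣ x - 1 := by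
      have h1 : ℓ ^ (Nat.totient p) ≡ 1 [MOD p] :=
        Nat.ModEq.pow_totient ((Nat.coprime_primes hℓ hp).2 hne)
      rw [Nat.totient_prime hp] at h1
      exact (Nat.modEq_iff_dvd' hx1.le).1 h1.symm
    have hpx : ¬ p ∣ x := fun h1 => hcop (hp.dvd_of_dvd_pow h1)
    have h1 := padicValNat.pow_sub_pow hodd (y := 1) hx1 hxp hpx (n := d) (by omega)
    rw [one_pow] at h1
    have h3 : ℓ ^ d - 1 ∣ x ^ d - 1 := by
      have h4 := Nat.sub_dvd_pow_sub_pow (ℓ ^ d) 1 (p - 1)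
      rwa [one_pow, pow_right_comm] at h4
    have h0 : x ^ d - 1 ≠ 0 := by
      have h4 : 1 < x ^ d := Nat.one_lt_pow (by omega) hx1
      omega
    have h4 : N ≤ padicValNat p (x ^ d - 1) := (padicValNat_dvd_iff_le h0).1 (h.trans h3)
    omega

theorem index_le {p ℓ N a : ℕ} (hp : p.Prime) (hℓ : ℓ.Prime)
    (h : ∀ d : ℕ, 1 ≤ d → p ^ N ∣ ℓ ^ d - 1 → p ^ N ≤ p ^ a * d)
    (u : (ZMod (p ^ N))ˣ) (hu : (u : ZMod (p ^ N)) = (ℓ : ZMod (p ^ N))) :
    (Subgroup.zpowers u).index ≤ p ^ a := by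
  have hne : NeZero (p ^ N) := ⟨(pow_pos hp.pos N).ne'⟩
  have h1 : 1 ≤ orderOf u := orderOf_pos u
  have h2 : p ^ N ∣ ℓ ^ orderOf u - 1 := by
    have h3 : ((ℓ ^ orderOf u : ℕ) : ZMod (p ^ N)) = ((1 : ℕ) : ZMod (p ^ N)) := by
      have h4 : ((u ^ orderOf u : (ZMod (p ^ N))ˣ) : ZMod (p ^ N)) = 1 := by
        rw [pow_orderOf_eq_one, Units.val_one]
      rw [Units.val_pow_eq_pow_val, hu] at h4
      push_cast
      exact h4
    have h4 := (ZMod.natCast_eq_natCast_iff _ _ _).1 h3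
    exact (Nat.modEq_iff_dvd' (Nat.one_le_pow _ _ hℓ.pos)).1 h4.symm
  have h3 := h _ h1 h2
  have h4 : (Subgroup.zpowers u).index * orderOf u ≤ p ^ a * orderOf u := by
    rw [← Nat.card_zpowers, Subgroup.index_mul_card, Nat.card_zpowers]
    refine le_trans ?_ h3
    rw [Nat.card_eq_fintype_card, ZMod.card_units_eq_totient]
    exact Nat.totient_le _
  exact Nat.le_of_mul_le_mul_right h4 h1

/-! ### congruences in the ring `ℤ[ζ]` -/

theorem mul_nonunits' {A : ValuationSubring Qb} {x z : Qb} (hx : x ∈ A) (hz : z ∈ A.nonunits) :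
    x * z ∈ A.nonunits := by
  rw [mul_comm]
  exact mul_nonunits hz hx

theorem frob_adjoin {ℓ : ℕ} (hℓ : ℓ.Prime) {A : ValuationSubring Qb} (hA : (ℓ : Qb) ∈ A.nonunits)
    {ζ : Qb} (hζ : IsIntegral ℤ ζ) (g : Gal(Qb/ℚ)) (hg : g ζ = ζ ^ ℓ) {z : Qb}
    (hz : z ∈ Algebra.adjoin ℤ {ζ}) : g z - z ^ ℓ ∈ A.nonunits := by
  have hint : ∀ x ∈ Algebra.adjoin ℤ {ζ}, IsIntegral ℤ x := by
    intro x hx
    have h1 : Algebra.adjoin ℤ {ζ} ≤ integralClosure ℤ Qb := adjoin_le_integralClosure hζ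
    exact h1 hx
  have hmem : ∀ x ∈ Algebra.adjoin ℤ {ζ}, x ∈ A := fun x hx =>
    Pool.Agent.Q60.MU.integral_mem A (hint x hx)
  have hgmem : ∀ x ∈ Algebra.adjoin ℤ {ζ}, g x ∈ A := fun x hx =>
    Pool.Agent.Q60.MU.integral_mem A ((hint x hx).map (g : Qb →ₐ[ℚ] Qb).toIntAlgHom)
  induction hz using Algebra.adjoin_induction with
  | mem x hx =>
    rw [Set.mem_singleton_iff] at hx
    rw [hx, hg, sub_self]
    exact zero_mem _
  | algebraMap r =>
    have h1 : g (algebraMap ℤ Qb r) = algebraMap ℤ Qb r := by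
      simp
    rw [h1]
    have h2 : (ℓ : ℤ) ∣ r - r ^ ℓ := by
      have hf := Fact.mk hℓ
      rw [← ZMod.intCast_zmod_eq_zero_iff_dvd]
      push_cast
      rw [ZMod.pow_card, sub_self]
    obtain ⟨s, hs⟩ := h2
    have h3 : algebraMap ℤ Qb r - algebraMap ℤ Qb r ^ ℓ = (ℓ : Qb) * (s : Qb) := by
      have h4 : (((r - r ^ ℓ : ℤ)) : Qb) = (((ℓ : ℤ) * s : ℤ) : Qb) := by rw [hs]
      push_cast at h4
      simpa using h4
    rw [h3]
    refine mul_nonunits hA (Pool.Agent.Q60.MU.integral_mem A ?_)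
    have h5 := isIntegral_algebraMap (R := ℤ) (A := Qb) (x := s)
    simpa using h5
  | add x y hx hy ihx ihy =>
    obtain ⟨r, hr⟩ := exists_add_pow_prime_eq hℓ (⟨x, hmem x hx⟩ : A) (⟨y, hmem y hy⟩ : A)
    have h1 : (x + y) ^ ℓ = x ^ ℓ + y ^ ℓ + ℓ * x * y * r := by
      have h2 := congrArg (fun t : A => (t : Qb)) hr
      simpa using h2
    have h2 : g (x + y) - (x + y) ^ ℓ = (g x - x ^ ℓ) + (g y - y ^ ℓ) -
        (ℓ : Qb) * (x * y * r) := by
      rw [map_add, h1]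
      ring
    rw [h2]
    refine sub_mem (add_mem ihx ihy) (mul_nonunits hA ?_)
    exact A.mul_mem _ _ (A.mul_mem _ _ (hmem x hx) (hmem y hy)) r.2
  | mul x y hx hy ihx ihy =>
    have h2 : g (x * y) - (x * y) ^ ℓ = (g x - x ^ ℓ) * g y + x ^ ℓ * (g y - y ^ ℓ) := by
      rw [map_mul, mul_pow]
      ring
    rw [h2]
    exact add_mem (mul_nonunits ihx (hgmem y hy))
      (mul_nonunits' (A.pow_mem (hmem x hx) ℓ) ihy)

/-! ### the field -/

theorem cyc_eq {p N : ℕ} (hp : p.Prime) {ζ : Qb} (hζ : IsPrimitiveRoot ζ (p ^ N)) :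
    cyc p N = adjoin ℚ {ζ} := by
  have hne : NeZero (p ^ N) := ⟨(pow_pos hp.pos N).ne'⟩
  unfold cyc
  apply le_antisymm
  · rw [adjoin_le_iff]
    intro z hz
    obtain ⟨i, -, hi⟩ := hζ.eq_pow_of_pow_eq_one hz
    rw [← hi]
    exact pow_mem (mem_adjoin_simple_self ℚ ζ) i
  · rw [adjoin_simple_le_iff]
    exact subset_adjoin _ _ hζ.pow_eq_one

theorem exists_prim {p : ℕ} (hp : p.Prime) (N : ℕ) : ∃ ζ : Qb, IsPrimitiveRoot ζ (p ^ N) := by
  have h1 : IsAlgClosed Qb := AlgebraicClosure.isAlgClosed ℚ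
  have hne : NeZero (p ^ N) := ⟨(pow_pos hp.pos N).ne'⟩
  have hne' : NeZero ((p ^ N : ℕ) : Qb) := NeZero.charZero
  exact HasEnoughRootsOfUnity.exists_primitiveRoot Qb (p ^ N)

theorem fd_cyc {p : ℕ} (hp : p.Prime) (N : ℕ) : FiniteDimensional ℚ (cyc p N) := by
  obtain ⟨ζ, hζ⟩ := exists_prim hp N
  rw [cyc_eq hp hζ]
  exact adjoin.finiteDimensional (isAlg_Qb.isAlgebraic ζ).isIntegral

/-- The integers of `ℚ(ζ)`. -/
theorem mem_adjoin_of_integral {p N : ℕ} (hp : p.Prime) {ζ : Qb} (hζ : IsPrimitiveRoot ζ (p ^ N))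
    {z : Qb} (hz : z ∈ cyc p N) (hi : IsIntegral ℤ z) : z ∈ Algebra.adjoin ℤ {ζ} := by
  have hpf := Fact.mk hp
  have hne : NeZero (p ^ N) := ⟨(pow_pos hp.pos N).ne'⟩
  rw [cyc_eq hp hζ] at hz
  have hc : IsCyclotomicExtension {p ^ N} ℚ (adjoin ℚ {ζ} : IntermediateField ℚ Qb) :=
    hζ.intermediateField_adjoin_isCyclotomicExtension ℚ
  set K : IntermediateField ℚ Qb := adjoin ℚ {ζ} with hK
  set ζ' : K := ⟨ζ, mem_adjoin_simple_self ℚ ζ⟩ with hζ'
  have h1 : IsPrimitiveRoot ζ' (p ^ N) := by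
    have h2 : IsPrimitiveRoot (algebraMap K Qb ζ') (p ^ N) := hζ
    exact h2.of_map_of_injective (algebraMap K Qb).injective
  have h2 := IsCyclotomicExtension.Rat.isIntegralClosure_adjoin_singleton_of_prime_pow h1
  have h3 : IsIntegral ℤ (⟨z, hz⟩ : K) := by
    have h4 : IsIntegral ℤ (algebraMap K Qb ⟨z, hz⟩) := hi
    exact (isIntegral_algebraMap_iff (algebraMap K Qb).injective).1 h4
  obtain ⟨y, hy⟩ := h2.isIntegral_iff.1 h3
  have h4 : (⟨z, hz⟩ : K) ∈ Algebra.adjoin ℤ {ζ'} := by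
    rw [← hy]
    exact y.2
  have h5 : ∀ x : K, x ∈ Algebra.adjoin ℤ {ζ'} → (x : Qb) ∈ Algebra.adjoin ℤ {ζ} := by
    intro x hx
    induction hx using Algebra.adjoin_induction with
    | mem x hx =>
      rw [Set.mem_singleton_iff] at hx
      rw [hx]
      exact Algebra.self_mem_adjoin_singleton ℤ ζ
    | algebraMap r =>

      simp
    | add x y _ _ ihx ihy => exact add_mem ihx ihy
    | mul x y _ _ ihx ihy => exact mul_mem ihx ihy
  exact h5 _ h4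

/-! ### valuation rings above `ℓ` -/

theorem smul_nonunits {ℓ : ℕ} {A : ValuationSubring Qb} (g : Gal(Qb/ℚ))
    (hA : (ℓ : Qb) ∈ A.nonunits) : (ℓ : Qb) ∈ (g • A).nonunits := by
  rw [ValuationSubring.mem_nonunits_iff_or] at hA ⊢
  rcases hA with h | h
  · exact Or.inl h
  · right
    intro h1
    apply h
    rw [ValuationSubring.mem_pointwise_smul_iff_inv_smul_mem] at h1
    have h2 : g⁻¹ • ((ℓ : Qb))⁻¹ = (ℓ : Qb)⁻¹ := by
      show g⁻¹ ((ℓ : Qb))⁻¹ = (ℓ : Qb)⁻¹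
      rw [map_inv₀, map_natCast]
    rwa [h2] at h1

theorem mem_inv_smul_nonunits {A : ValuationSubring Qb} (g : Gal(Qb/ℚ)) (z : Qb) :
    z ∈ (g⁻¹ • A).nonunits ↔ g z ∈ A.nonunits := by
  have h1 : ∀ x : Qb, x ∈ g⁻¹ • A ↔ g x ∈ A := by
    intro x
    rw [ValuationSubring.mem_pointwise_smul_iff_inv_smul_mem, inv_inv]
    rfl
  rw [ValuationSubring.mem_nonunits_iff_or, ValuationSubring.mem_nonunits_iff_or, h1, map_inv₀]
  simp

/-- valuation rings with the same nonunits among the integers of `M` are conjugate over `M` -/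
theorem conj_of_nonunits {ℓ : ℕ} (hℓ : ℓ.Prime) (M : IntermediateField ℚ Qb)
    [FiniteDimensional ℚ M] {A B : ValuationSubring Qb} (hA : (ℓ : Qb) ∈ A.nonunits)
    (hB : (ℓ : Qb) ∈ B.nonunits)
    (h : ∀ z ∈ M, IsIntegral ℤ z → (z ∈ A.nonunits ↔ z ∈ B.nonunits)) :
    ∃ g ∈ M.fixingSubgroup, A = g • B := by
  have hnf : NumberField M := ⟨⟩
  have hint : ∀ (C : ValuationSubring Qb) (a : 𝓞 M), algebraMap (𝓞 M) M a ∈ C.comap (algebraMap M Qb) := by
    intro C a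
    rw [ValuationSubring.mem_comap]
    apply Pool.Agent.Q60.MU.integral_mem C
    exact (RingOfIntegers.isIntegral_coe a).map ((algebraMap M Qb).toIntAlgHom)
  have hne : ∀ C : ValuationSubring Qb, (ℓ : Qb) ∈ C.nonunits → C.comap (algebraMap M Qb) ≠ ⊤ := by
    intro C hC htop
    have h2 : ((ℓ : M))⁻¹ ∈ C.comap (algebraMap M Qb) := by rw [htop]; trivial
    rw [ValuationSubring.mem_comap, map_inv₀, map_natCast] at h2
    rw [ValuationSubring.mem_nonunits_iff_or] at hC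
    rcases hC with h3 | h3
    · exact hℓ.ne_zero (by exact_mod_cast h3)
    · exact h3 h2
  have h2 : A.comap (algebraMap M Qb) = B.comap (algebraMap M Qb) := by
    refine Pool.Agent.H639R3.eq_of_integral_nonunits (A := ℤ) (F := ℚ) _ _ ?_ ?_ (hne A hA)
      (hne B hB) ?_
    · intro a
      rw [ValuationSubring.mem_comap]
      refine Pool.Agent.Q60.MU.integral_mem A ?_
      exact (isIntegral_algebraMap (R := ℤ) (A := M) (x := a)).map ((algebraMap M Qb).toIntAlgHom)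
    · intro a
      rw [ValuationSubring.mem_comap]
      refine Pool.Agent.Q60.MU.integral_mem B ?_
      exact (isIntegral_algebraMap (R := ℤ) (A := M) (x := a)).map ((algebraMap M Qb).toIntAlgHom)
    · intro z hz
      rw [Pool.Agent.H639R3.comap_val_lt_one, Pool.Agent.H639R3.comap_val_lt_one,
        ← ValuationSubring.mem_nonunits_iff, ← ValuationSubring.mem_nonunits_iff]
      exact h _ z.2 (hz.map ((algebraMap M Qb).toIntAlgHom))
  obtain ⟨σ, hσ⟩ := Pool.Agent.H639R3.exists_aut (F := M) (L := Qb) (A := 𝓞 M) B A (hint B)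
    (hne B hB) h2.symm
  let τ : Gal(Qb/ℚ) := σ.restrictScalars ℚ
  have hτM : τ ∈ M.fixingSubgroup := by
    rw [IntermediateField.mem_fixingSubgroup_iff]
    intro x hx
    exact σ.commutes (⟨x, hx⟩ : M)
  refine ⟨τ⁻¹, inv_mem hτM, ?_⟩
  ext a
  rw [ValuationSubring.mem_pointwise_smul_iff_inv_smul_mem, inv_inv, hσ]
  rfl

/-- an automorphism with `g ζ = ζ ^ ℓ` -/
theorem frob_conj {p ℓ N : ℕ} (hp : p.Prime) (hℓ : ℓ.Prime) {ζ : Qb}
    (hζ : IsPrimitiveRoot ζ (p ^ N)) {g : Gal(Qb/ℚ)} (hg : g ζ = ζ ^ ℓ)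
    {A : ValuationSubring Qb} (hA : (ℓ : Qb) ∈ A.nonunits) :
    ∃ σ ∈ (cyc p N).fixingSubgroup, g • A = σ • A := by
  have hfd := fd_cyc hp N
  have hζi : IsIntegral ℤ ζ := hζ.isIntegral (pow_pos hp.pos N)
  obtain ⟨σ, hσ, h⟩ := conj_of_nonunits hℓ (cyc p N) (A := g⁻¹ • (g • A)) (B := g • A)
    (by rw [inv_smul_smul]; exact hA) (smul_nonunits g hA) (by
      intro z hz hzi
      have h1 := frob_adjoin hℓ (smul_nonunits g hA) hζi g hg
        (mem_adjoin_of_integral hp hζ hz hzi)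
      have hzA : z ∈ g • A := Pool.Agent.Q60.MU.integral_mem _ hzi
      rw [mem_inv_smul_nonunits]
      have h2 : z ∈ (g • A).nonunits ↔ z ^ ℓ ∈ (g • A).nonunits := by
        rw [ValuationSubring.mem_nonunits_iff, ValuationSubring.mem_nonunits_iff, map_pow]
        constructor
        · intro h3
          exact pow_lt_one₀ zero_le h3 hℓ.ne_zero
        · intro h3
          by_contra h4
          exact absurd h3 (not_lt.2 (one_le_pow₀ (not_lt.1 h4)))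
      rw [h2]
      constructor
      · intro h3
        have h4 := sub_mem h3 h1
        rwa [sub_sub_cancel] at h4
      · intro h3
        have h4 := add_mem h1 h3
        rwa [sub_add_cancel] at h4)
  rw [inv_smul_smul] at h
  refine ⟨σ⁻¹, inv_mem hσ, ?_⟩
  conv_rhs => rw [h]
  rw [inv_smul_smul]

theorem fix_iff {p N : ℕ} (hp : p.Prime) {ζ : Qb} (hζ : IsPrimitiveRoot ζ (p ^ N))
    {g : Gal(Qb/ℚ)} (hg : g ζ = ζ) : g ∈ (cyc p N).fixingSubgroup := by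
  rw [cyc_eq hp hζ]
  have h2 : adjoin ℚ {ζ} ≤ fixedField (Subgroup.zpowers g) := by
    rw [adjoin_simple_le_iff]
    have h3 : Subgroup.zpowers g ≤ MulAction.stabilizer Gal(Qb/ℚ) ζ := by
      rw [Subgroup.zpowers_le]
      exact hg
    exact (mem_fixedField_iff _ _).2 fun f hf => h3 hf
  rw [IntermediateField.mem_fixingSubgroup_iff]
  intro x hx
  exact (mem_fixedField_iff _ _).1 (h2 hx) g (Subgroup.mem_zpowers g)

/-- the powers -/
theorem frob_conj_pow {p ℓ N : ℕ} (hp : p.Prime) (hℓ : ℓ.Prime) {ζ : Qb}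
    (hζ : IsPrimitiveRoot ζ (p ^ N)) {φ : Gal(Qb/ℚ)} (hφ : φ ζ = ζ ^ ℓ) (k : ℕ)
    {A : ValuationSubring Qb} (hA : (ℓ : Qb) ∈ A.nonunits) :
    ∃ σ ∈ (cyc p N).fixingSubgroup, φ ^ k • A = σ • A := by
  induction k with
  | zero => exact ⟨1, one_mem _, by rw [pow_zero]⟩
  | succ k ih =>
    obtain ⟨σ, hσ, h1⟩ := ih
    obtain ⟨τ, hτ, h2⟩ := frob_conj hp hℓ hζ hφ (smul_nonunits (φ ^ k) hA)
    refine ⟨τ * σ, mul_mem hτ hσ, ?_⟩
    rw [pow_succ', mul_smul, h2, h1, mul_smul]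

/-- **MU3.** -/
theorem finDec : FinDecT := by
  intro p ℓ hp hℓ hne
  obtain ⟨a, ha⟩ := exists_exp hp hℓ hne
  refine ⟨p ^ a, fun N => ?_⟩
  classical
  by_cases hex : ∃ A₀ : ValuationSubring Qb, (ℓ : Qb) ∈ A₀.nonunits
  swap
  · exact ⟨∅, Nat.zero_le _, fun A hA => absurd ⟨A, hA⟩ hex⟩
  obtain ⟨A₀, hA₀⟩ := hex
  obtain ⟨ζ, hζ⟩ := exists_prim hp N
  have hnz : NeZero (p ^ N) := ⟨(pow_pos hp.pos N).ne'⟩
  set χ : Gal(Qb/ℚ) →* (ZMod (p ^ N))ˣ := hζ.autToPow ℚ with hχ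
  have hspec : ∀ g : Gal(Qb/ℚ), g ζ = ζ ^ ((χ g : (ZMod (p ^ N))ˣ) : ZMod (p ^ N)).val := fun g =>
    (hζ.autToPow_spec ℚ g).symm
  have hcop : Nat.Coprime ℓ (p ^ N) := Nat.Coprime.pow_right N ((Nat.coprime_primes hℓ hp).2 hne)
  set u : (ZMod (p ^ N))ˣ := ZMod.unitOfCoprime ℓ hcop with hu
  have hidx := index_le hp hℓ (fun d hd h => ha N d hd h) u (ZMod.coe_unitOfCoprime ℓ hcop)
  -- surjectivity of the character
  have hsurj : Function.Surjective χ := by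
    intro v
    have h1 : IsPrimitiveRoot (ζ ^ (v : ZMod (p ^ N)).val) (p ^ N) :=
      hζ.pow_of_coprime _ (ZMod.val_coe_unit_coprime v)
    have h2 : IsConjRoot ℚ (ζ ^ (v : ZMod (p ^ N)).val) ζ := by
      unfold IsConjRoot
      rw [← Polynomial.cyclotomic_eq_minpoly_rat h1 (pow_pos hp.pos N),
        ← Polynomial.cyclotomic_eq_minpoly_rat hζ (pow_pos hp.pos N)]
    obtain ⟨σ, hσ⟩ := isConjRoot_iff_exists_algEquiv.1 h2
    refine ⟨σ, ?_⟩
    apply Units.ext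
    apply ZMod.val_injective
    apply hζ.pow_inj (ZMod.val_lt _) (ZMod.val_lt _)
    rw [← hspec, hσ]
  obtain ⟨φ, hφ⟩ := hsurj u
  have hφζ : φ ζ = ζ ^ ℓ := by
    rw [hspec φ, hφ, hu, ZMod.coe_unitOfCoprime, ZMod.val_natCast]
    exact (pow_mod_orderOf ζ ℓ ▸ by rw [hζ.eq_orderOf])
  have hfix : ∀ g : Gal(Qb/ℚ), χ g = 1 → g ∈ (cyc p N).fixingSubgroup := by
    intro g hg
    apply fix_iff hp hζ
    have h1 := hspec φ
    have h2 := hspec g
    rw [hg, ← map_one χ, ← hspec] at h2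
    exact h2
  -- if `χ g` is a power of `ℓ`
  have hpow : ∀ (k : ℕ) (g : Gal(Qb/ℚ)), χ g = u ^ k → ∀ A : ValuationSubring Qb,
      (ℓ : Qb) ∈ A.nonunits → ∃ σ ∈ (cyc p N).fixingSubgroup, g • A = σ • A := by
    intro k g hg A hA
    obtain ⟨σ, hσ, h1⟩ := frob_conj_pow hp hℓ hζ hφζ k hA
    refine ⟨g * (φ ^ k)⁻¹ * σ, mul_mem (hfix _ ?_) hσ, ?_⟩
    · rw [map_mul, map_inv, map_pow, hφ, hg, mul_inv_cancel]
    · rw [mul_smul, ← h1, mul_smul, inv_smul_smul]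
  -- representatives
  choose r hr using hsurj
  let S := Subgroup.zpowers u
  have hfinQ : Finite ((ZMod (p ^ N))ˣ ⧸ S) := inferInstance
  let _ := Fintype.ofFinite ((ZMod (p ^ N))ˣ ⧸ S)
  refine ⟨Finset.univ.image fun c : (ZMod (p ^ N))ˣ ⧸ S => r c.out • A₀, ?_, ?_⟩
  · refine Finset.card_image_le.trans ?_
    rw [Finset.card_univ, ← Nat.card_eq_fintype_card]
    exact hidx
  · intro A hA
    obtain ⟨g, -, hg⟩ := conj_of_one hℓ (⊥ : IntermediateField ℚ Qb)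
      (Pool.Agent.W5h33.DF.onePrime_bot hℓ) hA hA₀
    set c : (ZMod (p ^ N))ˣ ⧸ S := (χ g : (ZMod (p ^ N))ˣ ⧸ S) with hc
    refine ⟨r c.out • A₀, Finset.mem_image.2 ⟨c, Finset.mem_univ _, rfl⟩, ?_⟩
    have h1 : ((c.out : (ZMod (p ^ N))ˣ) : (ZMod (p ^ N))ˣ ⧸ S) = (χ g : (ZMod (p ^ N))ˣ ⧸ S) := by
      rw [hc]
      exact Quotient.out_eq' _
    have h2 : (c.out)⁻¹ * χ g ∈ S := QuotientGroup.eq.1 h1
    obtain ⟨k, hk⟩ := mem_powers_iff_mem_zpowers.2 h2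
    have hk' : u ^ k = (c.out)⁻¹ * χ g := hk
    obtain ⟨σ, hσ, h3⟩ := hpow k (g * (r c.out)⁻¹) (by
      rw [map_mul, map_inv, hr, hk', mul_comm]) (r c.out • A₀) (smul_nonunits _ hA₀)
    refine ⟨σ, hσ, ?_⟩
    rw [← h3, mul_smul, inv_smul_smul, hg]

end Pool.Agent.J6H48.MuS
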